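import Pool.Agent.K3h83.IN.Stm6
import Pool.Agent.Y63.AWC.Ch

/-!
Project CY of helper83, bricks C1 and C6: `p`-singular classes and isometry.
-/

set_option autoImplicit false

open scoped BigOperators Classical

noncomputable section

namespace Pool.Agent.K3h95.CY

open Pool.Agent.Helper884 Pool.Agent.K3h83.IN
open IC (Irr)
open Pool.Agent.Y63.AWC (col_orth)

variable {p : ℕ} [hp : Fact p.Prime] {B X : Type} [Group B] [Group X]

/-- the elements of `P` with `z ^ p = 1` -/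
theorem cyc_mem [Finite B] {Q P H : Subgroup B} (hL : LC p Q P H) {z : B} (hz : z ∈ P)
    (h1 : z ^ p = 1) : z ∈ Q := by
  have : Fintype P := Fintype.ofFinite P
  have := hL.cyc
  have hle := IsCyclic.card_pow_eq_one_le (α := P) (n := p) hp.out.pos
  have hsub : (Finset.univ.filter fun a : P => (a : B) ∈ Q) ⊆
      Finset.univ.filter fun a : P => a ^ p = 1 := by
    intro a ha
    rw [Finset.mem_filter] at ha ⊢
    refine ⟨Finset.mem_univ _, ?_⟩
    apply Subtype.ext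
    have h2 : (⟨(a : B), ha.2⟩ : Q) ^ p = 1 := by
      have := pow_card_eq_one' (x := (⟨(a : B), ha.2⟩ : Q))
      rwa [hL.cQ] at this
    have h3 := congrArg Subtype.val h2
    simpa using h3
  have hcard : (Finset.univ.filter fun a : P => (a : B) ∈ Q).card = p := by
    have h2 : Nat.card (Q.subgroupOf P) = p := by
      rw [Nat.card_congr (Subgroup.subgroupOfEquivOfLe hL.QP).toEquiv, hL.cQ]
    rw [← h2, Nat.card_eq_fintype_card, Fintype.card_subtype]
    congr 1
  have heq := Finset.eq_of_subset_of_card_le hsub (by rw [hcard]; exact hle)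
  have h4 : (⟨z, hz⟩ : P) ∈ Finset.univ.filter fun a : P => a ^ p = 1 := by
    rw [Finset.mem_filter]
    refine ⟨Finset.mem_univ _, ?_⟩
    apply Subtype.ext
    simpa using h1
  rw [← heq, Finset.mem_filter] at h4
  exact h4.2

/-- an element of `H` of `p`-power order is trivial -/
theorem one_of_mem_H [Finite B] {Q P H : Subgroup B} (hL : LC p Q P H) {h : B} (hh : h ∈ H) {k : ℕ}
    (h1 : h ^ (p ^ k) = 1) : h = 1 := by
  have h2 : orderOf h ∣ p ^ k := orderOf_dvd_of_pow_eq_one h1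
  have h3 : orderOf h ∣ Nat.card H := by
    have h4 : orderOf (⟨h, hh⟩ : H) = orderOf h := by
      rw [← Subgroup.orderOf_coe]
    rw [← h4]
    exact orderOf_dvd_natCard _
  have h5 : Nat.Coprime (p ^ k) (Nat.card H) :=
    Nat.Coprime.pow_left k ((Nat.Prime.coprime_iff_not_dvd hp.out).2 hL.cH)
  have h6 : orderOf h = 1 := Nat.eq_one_of_dvd_coprimes h5 h2 h3
  exact orderOf_eq_one_iff.1 h6

/-- the elements of order `p` of `B` are in `Q` -/
theorem ord_mem [Finite B] {Q P H : Subgroup B} (hL : LC p Q P H) {y : B} (hy : y ^ p = 1) :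
    y ∈ Q := by
  have := hL.nQ
  have := hL.nH
  have hN : (H ⊔ P).Normal := by
    rw [← hL.cen]
    infer_instance
  -- `y` is in `H P`
  have hyN : y ∈ H ⊔ P := by
    rw [← QuotientGroup.eq_one_iff]
    have h1 : ((y : B) : B ⧸ (H ⊔ P)) ^ p = 1 := by
      rw [← QuotientGroup.mk_pow, hy]
      rfl
    have h2 : orderOf ((y : B) : B ⧸ (H ⊔ P)) ∣ p := orderOf_dvd_of_pow_eq_one h1
    have h3 : orderOf ((y : B) : B ⧸ (H ⊔ P)) ∣ (H ⊔ P).index := by
      have := orderOf_dvd_natCard ((y : B) : B ⧸ (H ⊔ P))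
      rwa [← Subgroup.index_eq_card] at this
    have h4 : Nat.Coprime p (H ⊔ P).index := (Nat.Prime.coprime_iff_not_dvd hp.out).2 hL.idx
    exact orderOf_eq_one_iff.1 (Nat.eq_one_of_dvd_coprimes h4 h2 h3)
  obtain ⟨h, hh, z, hz, rfl⟩ := Subgroup.mem_sup_of_normal_left.1 hyN
  -- `z ^ p` is in `H`
  have h1 : z ^ p ∈ H := by
    rw [← QuotientGroup.eq_one_iff, QuotientGroup.mk_pow]
    have h2 : ((h * z : B) : B ⧸ H) = (z : B ⧸ H) := by
      rw [QuotientGroup.mk_mul, (QuotientGroup.eq_one_iff h).2 hh, one_mul]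
    rw [← h2, ← QuotientGroup.mk_pow, hy]
    rfl
  have h2 : z ^ p = 1 := by
    obtain ⟨k, hk⟩ := hL.pP ⟨z, hz⟩
    have hk' : z ^ (p ^ k) = 1 := by simpa using congrArg Subtype.val hk
    apply one_of_mem_H hL h1 (k := k)
    rw [← pow_mul, mul_comm, pow_mul, hk', one_pow]
  have hzQ : z ∈ Q := cyc_mem hL hz h2
  have hcom : h * z = z * h := by
    have h3 : h ∈ Subgroup.centralizer (Q : Set B) := by
      rw [hL.cen]
      exact Subgroup.mem_sup_left hh
    exact ((Subgroup.mem_centralizer_iff.1 h3) z hzQ).symm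
  have h4 : h ^ p = 1 := by
    have h5 := hy
    rw [(show Commute h z from hcom).mul_pow, h2, mul_one] at h5
    exact h5
  have h5 : h = 1 := one_of_mem_H hL hh (k := 1) (by rwa [pow_one])
  rw [h5, one_mul]
  exact hzQ

/-- an element which conjugates a `p`-singular element of `B` into `B` is in `B` -/
theorem conj_range [Finite B] {Q P H : Subgroup B} {ι : B →* X} (hL : LC p Q P H)
    (hE : EC p Q ι) {a b : B} (ha : p ∣ orderOf a) {x : X} (hx : x * ι a * x⁻¹ = ι b) :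
    x ∈ ι.range := by
  have h0 : orderOf a ≠ 0 := (orderOf_pos a).ne'
  have h1 : orderOf (a ^ (orderOf a / p)) = p := orderOf_pow_orderOf_div h0 ha
  set k := orderOf a / p with hk
  have h2 : x * ι (a ^ k) * x⁻¹ = ι (b ^ k) := by
    rw [map_pow, map_pow, ← hx, conj_pow]
  have h3 : (a ^ k) ^ p = 1 := by
    rw [← h1]
    exact pow_orderOf_eq_one _
  have h4 : (b ^ k) ^ p = 1 := by
    apply hE.inj
    rw [map_pow, ← h2, conj_pow, ← map_pow, h3, map_one, mul_one, mul_inv_cancel]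
  have haQ := ord_mem hL h3
  have hbQ := ord_mem hL h4
  apply hE.nor
  intro y hy
  have h5 : (⟨a ^ k, haQ⟩ : Q) ≠ 1 := by
    intro h
    have h6 : a ^ k = 1 := congrArg Subtype.val h
    rw [h6, orderOf_one] at h1
    exact hp.out.one_lt.ne h1
  have h6 := zpowers_eq_top_of_prime_card (G := Q) (p := p) hL.cQ h5
  have h7 : (⟨y, hy⟩ : Q) ∈ Subgroup.zpowers (⟨a ^ k, haQ⟩ : Q) := by
    rw [h6]
    trivial
  obtain ⟨j, hj⟩ := Subgroup.mem_zpowers_iff.1 h7
  have hj' : (a ^ k) ^ j = y := by simpa using congrArg Subtype.val hj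
  refine ⟨(b ^ k) ^ j, Q.zpow_mem hbQ j, ?_⟩
  rw [← hj', map_zpow, map_zpow, ← h2, conj_zpow]

/-- the `p`-singular classes -/
theorem t_C6 : C6 := by
  intro p hp B X _ _ _ _ Q P H ι hL hE
  refine Nat.card_le_card_of_injective (fun c : {c : ConjClasses B // ∃ g, ConjClasses.mk g = c ∧ p ∣ orderOf g} =>
    (⟨ConjClasses.map ι c.1, by
      obtain ⟨g, hg, hg2⟩ := c.2
      refine ⟨ι g, ?_, ?_⟩
      · rw [← hg]
        rfl
      · rw [orderOf_injective ι hE.inj]
        exact hg2⟩ : {c : ConjClasses X // ∃ g, ConjClasses.mk g = c ∧ p ∣ orderOf g})) ?_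
  rintro ⟨c, a, rfl, ha⟩ ⟨c', b, rfl, hb⟩ h
  have h1 : ConjClasses.mk (ι a) = ConjClasses.mk (ι b) := congrArg Subtype.val h
  rw [ConjClasses.mk_eq_mk_iff_isConj, isConj_iff] at h1
  obtain ⟨x, hx⟩ := h1
  obtain ⟨n, rfl⟩ := conj_range hL hE ha hx
  apply Subtype.ext
  simp only
  rw [ConjClasses.mk_eq_mk_iff_isConj, isConj_iff]
  refine ⟨n, hE.inj ?_⟩
  rw [map_mul, map_mul, map_inv, hx]

/-- the number of elements which conjugate `a` to `b` -/
theorem conj_card [Finite B] {Q P H : Subgroup B} {ι : B →* X} (hL : LC p Q P H)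
    (hE : EC p Q ι) {a : B} (ha : p ∣ orderOf a) (b : B) :
    Nat.card {n : X // n * ι a * n⁻¹ = ι b} = Nat.card {n : B // n * a * n⁻¹ = b} := by
  symm
  refine Nat.card_congr (Equiv.ofBijective (fun n => ⟨ι n.1, ?_⟩) ⟨?_, ?_⟩)
  · rw [← map_inv, ← map_mul, ← map_mul, n.2]
  · intro n n' h
    apply Subtype.ext
    exact hE.inj (congrArg Subtype.val h)
  · rintro ⟨x, hx⟩
    obtain ⟨n, rfl⟩ := conj_range hL hE ha hx
    refine ⟨⟨n, hE.inj ?_⟩, rfl⟩
    rw [map_mul, map_mul, map_inv, hx]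

/-- the sum over the characters -/
theorem sum_chars [Fintype B] [Fintype X] (ι : B →* X) (β β' : B → ℂ) :
    ∑ χ ∈ Irr X, IC.B (fun b => χ (ι b)) β * IC.B β' (fun b => χ (ι b)) =
      (Nat.card B : ℂ)⁻¹ * (Nat.card B : ℂ)⁻¹ * ∑ a : B, ∑ b : B, β a⁻¹ * β' b *
        (Nat.card {n : X // n * ι a * n⁻¹ = ι b} : ℂ) := by
  have h1 : ∀ χ ∈ Irr X, IC.B (fun b => χ (ι b)) β * IC.B β' (fun b => χ (ι b)) =
      (Nat.card B : ℂ)⁻¹ * (Nat.card B : ℂ)⁻¹ * ∑ a : B, ∑ b : B, β a⁻¹ * β' b *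
        (χ (ι a) * χ (ι b)⁻¹) := by
    intro χ _
    unfold IC.B
    rw [mul_mul_mul_comm, Finset.sum_mul_sum]
    congr 1
    refine Finset.sum_congr rfl fun a _ => Finset.sum_congr rfl fun b _ => ?_
    show χ (ι a) * β a⁻¹ * (β' b * χ (ι b⁻¹)) = _
    rw [map_inv]
    ring
  rw [Finset.sum_congr rfl h1, ← Finset.mul_sum]
  congr 1
  rw [Finset.sum_comm]
  refine Finset.sum_congr rfl fun a _ => ?_
  rw [Finset.sum_comm]
  refine Finset.sum_congr rfl fun b _ => ?_
  rw [← Finset.mul_sum, col_orth]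

/-- isometry -/
theorem t_C1 : C1 := by
  intro p hp B X _ _ _ _ Q P H ι hL hE β β' _ hβ' h0 _
  have h1 : ∑ χ ∈ Irr X, IC.B (fun b => χ (ι b)) β * IC.B (fun b => χ (ι b)) β' =
      ∑ χ ∈ Irr X, IC.B (fun b => χ (ι b)) β * IC.B β' (fun b => χ (ι b)) :=
    Finset.sum_congr rfl fun χ _ => by rw [IC.B_comm (fun b => χ (ι b)) β']
  have h2 : IC.B β β' = ∑ ψ ∈ Irr B, IC.B (fun b => ψ (MonoidHom.id B b)) β *
      IC.B β' (fun b => ψ (MonoidHom.id B b)) := by
    rw [IC.B_comm, IC.B_expand β' β hβ']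
    exact Finset.sum_congr rfl fun ψ _ => mul_comm _ _
  rw [h1, h2, sum_chars, sum_chars]
  congr 1
  refine Finset.sum_congr rfl fun a _ => Finset.sum_congr rfl fun b _ => ?_
  by_cases ha : p ∣ orderOf a
  · rw [conj_card hL hE ha b]
    rfl
  · rw [h0 a⁻¹ (by rwa [orderOf_inv])]
    ring

end Pool.Agent.K3h95.CY
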